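import Pool.Agent.H36.Rec

open Pool.Agent.H38.NP Pool.Agent.H36.Rec

theorem Pool.Agent.Results.MP_391ee8_lc.Hard.result : NPHardOn Valid Few :=
  hard.npHardOn
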